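import Pool.Agent.Helper98.DISC.GoalsA

/-!
# Project DISC, packet DIF: `y_k` is holomorphic for `|z| > k - 1`
-/

open MeasureTheory Set Filter Topology

noncomputable section

namespace Pool.Agent.Helper51.DISC

open Pool.Agent.Helper98.DISC

theorem sk_zero (z : ℂ) : sk 0 z = 1 := by
  unfold sk
  have h : prt 0 = Finset.univ := by
    unfold prt
    rw [Finset.filter_eq_self]
    intro lam _
    exact ⟨fun i ↦ i.elim0, by simp⟩
  rw [h]
  simp [dl]

theorem coeff_th (f : PowerSeries ℂ) (k : ℕ) :
    PowerSeries.coeff k (th f) = k * PowerSeries.coeff k f := by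
  unfold th
  cases k with
  | zero => simp
  | succ k =>
    rw [PowerSeries.coeff_succ_X_mul, PowerSeries.coeff_derivative]
    push_cast
    ring

theorem yz_mul (z : ℂ) : yz z * Sz z = th (Sz z) := by
  unfold yz
  rw [mul_assoc, PowerSeries.inv_mul_cancel, mul_one]
  have : PowerSeries.constantCoeff (Sz z) = sk 0 z := by
    rw [← PowerSeries.coeff_zero_eq_constantCoeff_apply]
    simp [Sz]
  rw [this, sk_zero]
  exact one_ne_zero

theorem yk_rec (k : ℕ) (z : ℂ) :
    yk k z = k * sk k z - ∑ a ∈ Finset.range k, yk a z * sk (k - a) z := by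
  have h := congrArg (PowerSeries.coeff k) (yz_mul z)
  rw [PowerSeries.coeff_mul, coeff_th, Finset.Nat.sum_antidiagonal_eq_sum_range_succ_mk,
    Finset.sum_range_succ] at h
  simp only [Sz, PowerSeries.coeff_mk, Nat.sub_self, sk_zero, mul_one] at h
  unfold yk
  rw [← h]
  ring

theorem sk_diff (k : ℕ) (z : ℂ) (hz : (k : ℝ) < ‖z‖ + 1) : DifferentiableAt ℂ (sk k) z := by
  unfold sk
  refine DifferentiableAt.fun_sum fun lam _ ↦ ?_
  refine DifferentiableAt.const_mul ?_ _
  refine DifferentiableAt.fun_finset_prod fun i _ ↦ ?_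
  refine DifferentiableAt.fun_finset_prod fun j hj ↦ ?_
  rw [Finset.mem_range] at hj
  have hj' : j + 1 ≤ k := by have := (lam i).2; omega
  have hi' : (i : ℕ) + 1 ≤ k := i.2
  refine DifferentiableAt.inv (by fun_prop) fun h0 ↦ ?_
  have hz' : z = ((((i : ℕ) : ℤ) - (j : ℤ) : ℤ) : ℂ) := by
    push_cast
    linear_combination h0
  have hn : ‖z‖ ≤ (k : ℝ) - 1 := by
    rw [hz', Complex.norm_intCast]
    have h1 : |(((i : ℕ) : ℤ) - (j : ℤ))| ≤ (k : ℤ) - 1 := by
      rw [abs_le]; constructor <;> omega
    exact_mod_cast h1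
  linarith

theorem dif : S_DIF := by
  intro k
  induction k using Nat.strong_induction_on with
  | _ k ih =>
    intro z hz
    have h : yk k = fun z ↦ k * sk k z - ∑ a ∈ Finset.range k, yk a z * sk (k - a) z := by
      funext z
      exact yk_rec k z
    rw [h]
    refine DifferentiableAt.sub ((sk_diff k z hz).const_mul _) ?_
    refine DifferentiableAt.fun_sum fun a ha ↦ ?_
    rw [Finset.mem_range] at ha
    have h1 : (a : ℝ) ≤ k := by exact_mod_cast ha.le
    have h2 : ((k - a : ℕ) : ℝ) ≤ k := by exact_mod_cast Nat.sub_le k a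
    exact (ih a ha z (by linarith)).mul (sk_diff (k - a) z (by linarith))

end Pool.Agent.Helper51.DISC
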