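import Pool.Agent.Helper98.DISC.GoalsB

/-!
# Project DISC, packet SHF: translations in contour integrals
-/

open MeasureTheory Set Filter Topology Metric

noncomputable section

namespace Pool.Agent.Helper51.DISC

open Pool.Agent.Helper98.DISC

theorem isOpen_ext (r : ℝ) : IsOpen {z : ℂ | r < ‖z‖} := isOpen_lt continuous_const continuous_norm

theorem norm_circleMap {ρ : ℝ} (hρ : 0 ≤ ρ) (θ : ℝ) : ‖circleMap 0 ρ θ‖ = ρ := by
  rw [norm_circleMap_zero, abs_of_nonneg hρ]

theorem hasDerivAt_shift {r ρ : ℝ} {F : ℂ → ℂ} (hr : 0 ≤ r)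
    (hF : ∀ z : ℂ, r < ‖z‖ → DifferentiableAt ℂ F z) {c : ℂ} (hc : ‖c‖ < ρ - r) :
    HasDerivAt (fun c => ∮ z in C(0, ρ), F (z + c)) 0 c := by
  have hρ : 0 < ρ := by have := norm_nonneg c; linarith
  have hdo : DifferentiableOn ℂ F {z : ℂ | r < ‖z‖} := fun z hz => (hF z hz).differentiableWithinAt
  have hd' : ContinuousOn (deriv F) {z : ℂ | r < ‖z‖} :=
    (hdo.deriv (isOpen_ext r)).continuousOn
  obtain ⟨ε, hε, hεdef⟩ : ∃ ε : ℝ, 0 < ε ∧ ‖c‖ + ε + ε = ρ - r :=
    ⟨(ρ - r - ‖c‖) / 2, by linarith, by ring⟩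
  set K : Set ℂ := closedBall 0 (2 * ρ) \ ball 0 (r + ε) with hK
  have hKc : IsCompact K := (isCompact_closedBall _ _).diff isOpen_ball
  have hKs : K ⊆ {z : ℂ | r < ‖z‖} := by
    rintro z ⟨_, hz⟩
    rw [mem_ball_zero_iff, not_lt] at hz
    show r < ‖z‖
    linarith
  obtain ⟨M, hM⟩ := hKc.exists_bound_of_continuousOn (hd'.mono hKs)
  have hmem : ∀ x ∈ ball c ε, ∀ θ : ℝ, circleMap 0 ρ θ + x ∈ K := by
    intro x hx θ
    have hx1 : ‖x‖ < ‖c‖ + ε := by
      have h1 : ‖x - c‖ < ε := mem_ball_iff_norm.1 hx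
      have h2 : ‖x‖ ≤ ‖c‖ + ‖x - c‖ := by
        have := norm_add_le c (x - c)
        rwa [add_sub_cancel] at this
      linarith
    have h3 := norm_circleMap hρ.le θ
    constructor
    · rw [mem_closedBall_zero_iff]
      have := norm_add_le (circleMap 0 ρ θ) x
      linarith
    · rw [mem_ball_zero_iff, not_lt]
      have : ‖circleMap 0 ρ θ‖ ≤ ‖circleMap 0 ρ θ + x‖ + ‖x‖ := by
        have := norm_sub_le (circleMap 0 ρ θ + x) x
        rwa [add_sub_cancel_right] at this
      linarith
  have hcb : c ∈ ball c ε := mem_ball_self hε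
  have hcontF : ∀ x ∈ ball c ε, Continuous fun θ : ℝ =>
      deriv (circleMap 0 ρ) θ • F (circleMap 0 ρ θ + x) := by
    intro x hx
    have h1 : Continuous fun θ : ℝ => F (circleMap 0 ρ θ + x) := by
      rw [continuous_iff_continuousAt]
      intro θ
      exact ContinuousAt.comp (f := fun θ : ℝ => circleMap 0 ρ θ + x)
        (hF _ (hKs (hmem x hx θ))).continuousAt
        ((continuous_circleMap 0 ρ).add continuous_const).continuousAt
    simp only [deriv_circleMap]
    exact ((continuous_circleMap 0 ρ).mul continuous_const).smul h1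
  have hcontF' : Continuous fun θ : ℝ =>
      deriv (circleMap 0 ρ) θ • deriv F (circleMap 0 ρ θ + c) := by
    have h1 : Continuous fun θ : ℝ => deriv F (circleMap 0 ρ θ + c) := by
      rw [continuous_iff_continuousAt]
      intro θ
      exact ContinuousAt.comp (f := fun θ : ℝ => circleMap 0 ρ θ + c)
        (hd'.continuousAt ((isOpen_ext r).mem_nhds (hKs (hmem c hcb θ))))
        ((continuous_circleMap 0 ρ).add continuous_const).continuousAt
    simp only [deriv_circleMap]
    exact ((continuous_circleMap 0 ρ).mul continuous_const).smul h1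
  have key := intervalIntegral.hasDerivAt_integral_of_dominated_loc_of_deriv_le
    (μ := volume) (a := 0) (b := 2 * Real.pi)
    (F := fun (x : ℂ) (θ : ℝ) => deriv (circleMap 0 ρ) θ • F (circleMap 0 ρ θ + x))
    (F' := fun (x : ℂ) (θ : ℝ) => deriv (circleMap 0 ρ) θ • deriv F (circleMap 0 ρ θ + x))
    (x₀ := c) (s := ball c ε) (bound := fun _ => ρ * M) (ball_mem_nhds c hε)
    (Filter.eventually_of_mem (ball_mem_nhds c hε) fun x hx =>
      (hcontF x hx).aestronglyMeasurable)
    ((hcontF c hcb).intervalIntegrable _ _) hcontF'.aestronglyMeasurable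
    (Filter.Eventually.of_forall fun θ _ x hx => by
      rw [norm_smul, deriv_circleMap, norm_mul, Complex.norm_I, mul_one, norm_circleMap hρ.le]
      exact mul_le_mul_of_nonneg_left (hM _ (hmem x hx θ)) hρ.le)
    (intervalIntegrable_const)
    (Filter.Eventually.of_forall fun θ _ x hx => by
      have h1 : HasDerivAt (fun y : ℂ => F (circleMap 0 ρ θ + y))
          (deriv F (circleMap 0 ρ θ + x)) x := by
        have h2 := (hF _ (hKs (hmem x hx θ))).hasDerivAt
        exact h2.comp_const_add (circleMap 0 ρ θ) x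
      exact h1.fun_const_smul _)
  have hzero : (∫ θ in (0 : ℝ)..2 * Real.pi,
      deriv (circleMap 0 ρ) θ • deriv F (circleMap 0 ρ θ + c)) = 0 := by
    have := circleIntegral.integral_eq_zero_of_hasDerivWithinAt (f := fun z => F (z + c))
      (f' := fun z => deriv F (z + c)) (c := 0) (R := ρ) hρ.le (fun z hz => by
        have hz' : ‖z‖ = ρ := by simpa using hz
        have hlt : r < ‖z + c‖ := by
          have : ‖z‖ ≤ ‖z + c‖ + ‖c‖ := by
            have := norm_sub_le (z + c) c
            rwa [add_sub_cancel_right] at this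
          linarith
        have h2 := (hF _ hlt).hasDerivAt
        have h4 : HasDerivAt (fun z => F (z + c)) (deriv F (z + c)) z := h2.comp_add_const z c
        exact h4.hasDerivWithinAt)
    exact this
  have h := key.2
  rw [hzero] at h
  exact h

theorem integral_shift {r ρ : ℝ} {F : ℂ → ℂ} (hr : 0 ≤ r)
    (hF : ∀ z : ℂ, r < ‖z‖ → DifferentiableAt ℂ F z) {c : ℂ} (hc : r + ‖c‖ < ρ) :
    (∮ z in C(0, ρ), F (z + c)) = ∮ z in C(0, ρ), F z := by
  have hlt : 0 < ρ - r := by have := norm_nonneg c; linarith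
  have hd : ∀ x ∈ ball (0 : ℂ) (ρ - r),
      HasDerivAt (fun c => ∮ z in C(0, ρ), F (z + c)) 0 x := fun x hx =>
    hasDerivAt_shift hr hF (by simpa using hx)
  have := (isOpen_ball (x := (0 : ℂ)) (ε := ρ - r)).is_const_of_deriv_eq_zero
    (convex_ball (0 : ℂ) (ρ - r)).isPreconnected
    (f := fun c => ∮ z in C(0, ρ), F (z + c))
    (fun x hx => (hd x hx).differentiableAt.differentiableWithinAt)
    (fun x hx => (hd x hx).deriv) (x := c) (y := 0)
    (by rw [mem_ball_zero_iff]; linarith) (mem_ball_self hlt)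
  simpa using this

theorem shf : S_SHF := by
  intro r ρ φ c f hf hρ
  obtain ⟨hr, hd, _⟩ := hf
  unfold Cc
  have h := integral_shift (F := fun z => f z * Complex.exp (2 * Complex.I * z * φ)) hr
    (fun z hz => (hd z hz).mul (by fun_prop)) hρ
  have h2 : (∮ z in C(0, ρ), f (z + c) * Complex.exp (2 * Complex.I * z * φ)) =
      Complex.exp (-(2 * Complex.I * c * φ)) *
        ∮ z in C(0, ρ), f (z + c) * Complex.exp (2 * Complex.I * (z + c) * φ) := by
    rw [← circleIntegral.integral_const_mul]
    congr 1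
    funext z
    have : Complex.exp (2 * Complex.I * z * φ) = Complex.exp (-(2 * Complex.I * c * φ)) *
        Complex.exp (2 * Complex.I * (z + c) * φ) := by
      rw [← Complex.exp_add]
      congr 1
      ring
    rw [this]
    ring
  rw [h2, h]
  ring

end Pool.Agent.Helper51.DISC
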